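import Pool.Agent.H91.AV.Targets

/-!
# MP_c62aed_lc: row FAM (a family of terms)
-/

namespace Pool.Agent.H26.AV

open Finset Pool.Agent.H91.AV

theorem pf_FAM (hT : S_TRM) : S_FAM := by
  intro X Y ι _ _ _ r f T g m ka W S A hr hm hka hW hS hf0 hfm hfA hT0 hg0 hg1 hTs hι hfS hfg
  have hm0 : (0 : ℝ) ≤ m := by linarith
  have hS0 : (0 : ℝ) ≤ S := by linarith
  have hX0 : (0 : ℝ) ≤ Fintype.card X := Nat.cast_nonneg _
  rcases Nat.eq_zero_or_pos A.card with hA | hA
  · rw [hA]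
    simp only [Nat.cast_zero, mul_zero]
    positivity
  · have hn : (0 : ℝ) < A.card := by exact_mod_cast hA
    set n : ℝ := (A.card : ℝ) with hndef
    set θ : ℝ := n / W with hθdef
    have hθ : 0 < θ := div_pos hn hW
    set ρ : ℝ := (m * ka * W / n) ^ (((2 * r : ℕ) : ℝ)⁻¹) with hρdef
    have hbase : 0 ≤ m * ka * W / n := by positivity
    have hρ0 : 0 ≤ ρ := Real.rpow_nonneg hbase _
    have hρ : ρ ^ (2 * r) = m * ka * W / n := by
      rw [hρdef]
      exact Real.rpow_inv_natCast_pow hbase (by omega)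
    have hmk : m * ka ≤ θ * ρ ^ (2 * r) := by
      rw [hρ, hθdef]
      have : n / W * (m * ka * W / n) = m * ka := by field_simp
      rw [this]
    have hγ0 : ∀ i, 0 ≤ ∑ x, g i x ^ 2 := fun i => Finset.sum_nonneg fun x _ => sq_nonneg _
    have hφ0 : ∀ i, 0 ≤ ∑ a, f i a := fun i => Finset.sum_nonneg fun a _ => hf0 i a
    have hterm : ∀ i, ∑ a, f i a * T i a ≤ ρ * (∑ a, f i a + θ) * Real.sqrt (∑ x, g i x ^ 2) :=
      fun i => hT Y r (f i) (T i) m ka (∑ x, g i x ^ 2) θ ρ hr (hf0 i) (hfm i) (hT0 i) (hTs i)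
        (hγ0 i) hka hθ hρ0 hmk
    set Q : ℝ := ∑ i, (∑ a, f i a + θ) * Real.sqrt (∑ x, g i x ^ 2) with hQdef
    have hL : ∑ i, ∑ a, f i a * T i a ≤ ρ * Q := by
      rw [hQdef, Finset.mul_sum]
      refine Finset.sum_le_sum fun i _ => ?_
      rw [← mul_assoc]
      exact hterm i
    have hL0 : 0 ≤ ∑ i, ∑ a, f i a * T i a :=
      Finset.sum_nonneg fun i _ => Finset.sum_nonneg fun a _ => mul_nonneg (hf0 i a) (hT0 i a)
    have hCS : Q ^ 2 ≤ (∑ i, (∑ a, f i a + θ)) * (∑ i, (∑ a, f i a + θ) * ∑ x, g i x ^ 2) := by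
      rw [hQdef]
      refine Finset.sum_sq_le_sum_mul_sum_of_sq_eq_mul _ (fun i _ => by
        have := hφ0 i; linarith) (fun i _ => mul_nonneg (by
        have := hφ0 i; linarith) (hγ0 i)) (fun i _ => ?_)
      rw [mul_pow, Real.sq_sqrt (hγ0 i)]
      ring
    -- sums over A
    have hsumA : ∀ F : Y → ℝ, (∀ a, a ∉ A → F a = 0) → ∑ a, F a = ∑ a ∈ A, F a := by
      intro F hF
      exact (Finset.sum_subset (Finset.subset_univ A) fun a _ ha => hF a ha).symm
    have h1 : ∑ i, ∑ a, f i a ≤ n * S := by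
      rw [Finset.sum_comm]
      rw [hsumA (fun a => ∑ i, f i a) fun a ha => Finset.sum_eq_zero fun i _ => hfA i a ha]
      calc ∑ a ∈ A, ∑ i, f i a ≤ ∑ _a ∈ A, S := Finset.sum_le_sum fun a _ => hfS a
        _ = n * S := by rw [Finset.sum_const, nsmul_eq_mul]
    have h2 : (Fintype.card ι : ℝ) * θ ≤ n := by
      calc (Fintype.card ι : ℝ) * θ ≤ W * θ := mul_le_mul_of_nonneg_right hι hθ.le
        _ = n := by rw [hθdef]; field_simp
    have h12 : ∑ i, (∑ a, f i a + θ) ≤ 2 * n * S := by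
      rw [Finset.sum_add_distrib, Finset.sum_const, nsmul_eq_mul, Finset.card_univ]
      nlinarith
    have hγx : ∀ i, ∑ x, g i x ^ 2 ≤ ∑ x, g i x := fun i => Finset.sum_le_sum fun x _ => by
      have h0 := hg0 i x
      have h1 := hg1 i x
      nlinarith
    have hγX : ∀ i, ∑ x, g i x ^ 2 ≤ Fintype.card X := fun i => by
      refine (hγx i).trans ?_
      calc ∑ x, g i x ≤ ∑ _x : X, (1 : ℝ) := Finset.sum_le_sum fun x _ => hg1 i x
        _ = Fintype.card X := by simp
    have h4 : ∑ i, (∑ a, f i a) * ∑ x, g i x ^ 2 ≤ n * (Fintype.card X * (2 * m)) := by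
      calc ∑ i, (∑ a, f i a) * ∑ x, g i x ^ 2
          ≤ ∑ i, (∑ a, f i a) * ∑ x, g i x :=
            Finset.sum_le_sum fun i _ => mul_le_mul_of_nonneg_left (hγx i) (hφ0 i)
        _ = ∑ i, ∑ a, ∑ x, f i a * g i x := by
            refine Finset.sum_congr rfl fun i _ => ?_
            rw [Finset.sum_mul]
            refine Finset.sum_congr rfl fun a _ => ?_
            rw [Finset.mul_sum]
        _ = ∑ a, ∑ x, ∑ i, f i a * g i x := by
            rw [Finset.sum_comm]
            refine Finset.sum_congr rfl fun a _ => ?_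
            rw [Finset.sum_comm]
        _ = ∑ a ∈ A, ∑ x, ∑ i, f i a * g i x := by
            refine hsumA _ fun a ha => ?_
            refine Finset.sum_eq_zero fun x _ => Finset.sum_eq_zero fun i _ => ?_
            rw [hfA i a ha, zero_mul]
        _ ≤ ∑ _a ∈ A, ∑ _x : X, 2 * m :=
            Finset.sum_le_sum fun a _ => Finset.sum_le_sum fun x _ => hfg a x
        _ = n * (Fintype.card X * (2 * m)) := by
            simp only [Finset.sum_const, nsmul_eq_mul, Finset.card_univ]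
            rfl
    have h5 : ∑ i : ι, θ * ∑ x, g i x ^ 2 ≤ n * Fintype.card X := by
      calc ∑ i : ι, θ * ∑ x, g i x ^ 2 ≤ ∑ _i : ι, θ * Fintype.card X :=
            Finset.sum_le_sum fun i _ => mul_le_mul_of_nonneg_left (hγX i) hθ.le
        _ = ((Fintype.card ι : ℝ) * θ) * Fintype.card X := by
            rw [Finset.sum_const, nsmul_eq_mul, Finset.card_univ]; ring
        _ ≤ n * Fintype.card X := mul_le_mul_of_nonneg_right h2 hX0
    have h45 : ∑ i, (∑ a, f i a + θ) * ∑ x, g i x ^ 2 ≤ 3 * m * n * Fintype.card X := by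
      have : ∑ i, (∑ a, f i a + θ) * ∑ x, g i x ^ 2 =
          ∑ i, (∑ a, f i a) * ∑ x, g i x ^ 2 + ∑ i : ι, θ * ∑ x, g i x ^ 2 := by
        rw [← Finset.sum_add_distrib]
        refine Finset.sum_congr rfl fun i _ => ?_
        ring
      rw [this]
      have hnX : 0 ≤ n * Fintype.card X := mul_nonneg hn.le hX0
      nlinarith
    have hQ2 : Q ^ 2 ≤ n ^ 2 * Fintype.card X * (6 * m * S) := by
      refine hCS.trans ?_
      have hb0 : 0 ≤ ∑ i, (∑ a, f i a + θ) * ∑ x, g i x ^ 2 :=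
        Finset.sum_nonneg fun i _ => mul_nonneg (by have := hφ0 i; linarith) (hγ0 i)
      calc (∑ i, (∑ a, f i a + θ)) * (∑ i, (∑ a, f i a + θ) * ∑ x, g i x ^ 2)
          ≤ (2 * n * S) * (3 * m * n * Fintype.card X) :=
            mul_le_mul h12 h45 hb0 (by positivity)
        _ = n ^ 2 * Fintype.card X * (6 * m * S) := by ring
    have hfin : (∑ i, ∑ a, f i a * T i a) ^ (2 * r) ≤
        m * ka * W / n * (n ^ 2 * Fintype.card X * (6 * m * S)) ^ r := by
      calc (∑ i, ∑ a, f i a * T i a) ^ (2 * r) ≤ (ρ * Q) ^ (2 * r) :=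
            pow_le_pow_left₀ hL0 hL _
        _ = ρ ^ (2 * r) * (Q ^ 2) ^ r := by rw [mul_pow, ← pow_mul Q 2 r]
        _ ≤ m * ka * W / n * (n ^ 2 * Fintype.card X * (6 * m * S)) ^ r := by
            rw [hρ]
            exact mul_le_mul_of_nonneg_left (pow_le_pow_left₀ (sq_nonneg _) hQ2 _) hbase
    calc (∑ i, ∑ a, f i a * T i a) ^ (2 * r) * n
        ≤ m * ka * W / n * (n ^ 2 * Fintype.card X * (6 * m * S)) ^ r * n :=
          mul_le_mul_of_nonneg_right hfin hn.le
      _ = m * ka * W * (n ^ 2 * Fintype.card X * (6 * m * S)) ^ r := by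
          field_simp

end Pool.Agent.H26.AV
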